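import Pool.Agent.Helper70.ML.St3

set_option autoImplicit false

namespace Pool.Agent.Helper61.ML

open Pool.Agent.Helper70.ML Pool.Agent.Helper75.MX

theorem hPSTD (hPMON : StPMON) (hPTVR : StPTVR) (hPSTA : StPSTA) : StPSTD := by
  intro n F _ E _ _ φ X hn hX i j k l a b hij hkl hik hil hjk hjl
  classical
  obtain ⟨M1, M2, M3, M4, M5, M6, M7, M8⟩ := hPMON n F
  obtain ⟨T1, T2, T3, T4, T5⟩ := hPTVR n F
  obtain ⟨_, _, _, hadd0⟩ := hPSTA n F E φ X hn hX
  obtain ⟨hsur, hker, hodd⟩ := hX.ce
  have hz : ∀ z : E, φ z = 1 → ∀ g : E, g * z = z * g := by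
    intro z h g
    exact Subgroup.mem_center_iff.1 (hker (MonoidHom.mem_ker.2 h)) g
  have h2 : ∀ z : E, φ z = 1 → z * z = 1 → z = 1 := by
    intro z h hzz
    obtain ⟨m, hm⟩ := hodd
    have h3 : (⟨z, MonoidHom.mem_ker.2 h⟩ : φ.ker) ^ Nat.card φ.ker = 1 := pow_card_eq_one'
    have h4 : z ^ Nat.card φ.ker = 1 := by
      have := congrArg Subtype.val h3
      simpa using this
    rw [hm, pow_succ, pow_mul, pow_two, hzz, one_pow, one_mul] at h4
    exact h4
  set C : F → F → E := fun a b => X i j a * X k l b * (X i j a)⁻¹ * (X k l b)⁻¹ with hC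
  have hCk : ∀ a b, φ (C a b) = 1 := by
    intro a b
    have h := T2 i j k l a b hij hkl hjk hil
    simp only [hC, map_mul, map_inv, hX.map i j _ hij, hX.map k l _ hkl]
    rw [h]
    group
  have hadd : ∀ a a' b, C (a + a') b = C a' b * C a b := by
    intro a a' b
    have h1 := hz _ (hCk a' b) (X i j a)
    have h3 : C (a + a') b = X i j a * C a' b * (X k l b * (X i j a)⁻¹ * (X k l b)⁻¹) := by
      simp only [hC]
      rw [← hadd0 i j a a' hij]
      group
    rw [h3, h1]
    simp only [hC]
    group
  have haddr : ∀ a b b', C a (b + b') = C a b * C a b' := by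
    intro a b b'
    have h1 := hz _ (hCk a b') (X k l b)
    have h3 : C a (b + b') = C a b * (X k l b * C a b' * (X k l b)⁻¹) := by
      simp only [hC]
      rw [← hadd0 k l b b' hkl]
      group
    rw [h3, h1]
    group
  have h0l : ∀ b, C 0 b = 1 := by
    intro b
    have h := hadd 0 0 b
    rw [add_zero] at h
    exact (mul_eq_left.1 h.symm)
  have h0r : ∀ a, C a 0 = 1 := by
    intro a
    have h := haddr a 0 0
    rw [add_zero] at h
    exact (mul_eq_left.1 h.symm)
  suffices hfin : C a b = 1 by
    have h3 : X i j a * X k l b = C a b * (X k l b * X i j a) := by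
      simp only [hC]
      group
    rw [h3, hfin, one_mul]
  have hT : ∀ t : F, t ≠ 0 → ∀ a b, C (t * t * a) b = C a b := by
    intro t ht a b
    have hprod : ∏ m : Fin n, (fun m => if m = i then t else if m = j then t⁻¹ else 1 : Fin n → F) m
        = 1 := by
      rw [← Finset.mul_prod_erase Finset.univ _ (Finset.mem_univ i)]
      rw [← Finset.mul_prod_erase (Finset.univ.erase i) _
        (Finset.mem_erase.2 ⟨hij.symm, Finset.mem_univ j⟩)]
      have h1 : ∏ m ∈ (Finset.univ.erase i).erase j,
          (fun m => if m = i then t else if m = j then t⁻¹ else 1 : Fin n → F) m = 1 := by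
        apply Finset.prod_eq_one
        intro m hm
        have hm1 : m ≠ j := (Finset.mem_erase.1 hm).1
        have hm2 : m ≠ i := (Finset.mem_erase.1 (Finset.mem_erase.1 hm).2).1
        simp [hm1, hm2]
      rw [h1]
      simp [hij.symm, ht]
    obtain ⟨g0, hg0⟩ := M6 _ hprod
    obtain ⟨g, rfl⟩ := hsur g0
    have e1 := hX.eqv g 1 _ hg0 i j a hij
    have e2 := hX.eqv g 1 _ hg0 k l b hkl
    have e1' : g * X i j a * g⁻¹ = X i j (t * t * a) := by
      rw [e1]
      simp [hij.symm]
    have e2' : g * X k l b * g⁻¹ = X k l b := by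
      rw [e2]
      simp [hik.symm, hil.symm, hjk.symm, hjl.symm]
    have h3 : C (t * t * a) b = g * C a b * g⁻¹ := by
      simp only [hC]
      rw [← e1']
      nth_rewrite 1 [← e2']
      nth_rewrite 2 [← e2']
      group
    rw [h3, hz _ (hCk a b) g]
    group
  by_cases hex : ∃ t : F, t ≠ 0 ∧ t * t ≠ 1
  · obtain ⟨t, ht, htt⟩ := hex
    have h1 : t * t - 1 ≠ 0 := sub_ne_zero.2 htt
    have h3 := hT t ht (a / (t * t - 1)) b
    have h4 : t * t * (a / (t * t - 1)) = a / (t * t - 1) + a := by
      have h5 : (t * t - 1) * (a / (t * t - 1)) = a := by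
        rw [mul_div_assoc']
        exact mul_div_cancel_left₀ a h1
      linear_combination h5
    rw [h4, hadd] at h3
    exact mul_eq_right.1 h3
  · have hall : ∀ t : F, t ≠ 0 → t * t = 1 := by
      intro t ht
      by_contra h
      exact hex ⟨t, ht, h⟩
    have hdiag : ∀ a, C a a = 1 := by
      intro a
      have m1 := M7 i k 1 hik one_ne_zero
      have m2 := M7 j l 1 hjl one_ne_zero
      have m3 := M1 _ _ _ _ _ _ m1 m2
      obtain ⟨g, hg⟩ := hsur (tv i k 1 * tv k i (-1⁻¹) * tv i k 1 *
        (tv j l 1 * tv l j (-1⁻¹) * tv j l 1))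
      rw [← hg] at m3
      have e1 := hX.eqv g _ _ m3 i j a hij
      have e2 := hX.eqv g _ _ m3 k l a hkl
      have s1 : Equiv.swap j l i = i := Equiv.swap_apply_of_ne_of_ne hij hil
      have s2 : Equiv.swap j l k = k := Equiv.swap_apply_of_ne_of_ne hjk.symm hkl
      have s3 : Equiv.swap i k j = j := Equiv.swap_apply_of_ne_of_ne hij.symm hjk
      have s4 : Equiv.swap i k l = l := Equiv.swap_apply_of_ne_of_ne hil.symm hkl.symm
      have e1' : g * X i j a * g⁻¹ = X k l a := by
        rw [e1]
        simp only [Equiv.Perm.mul_apply, s1, Equiv.swap_apply_left, s4, wc]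
        simp [hij, hil, hij.symm, hil.symm, hkl.symm]
      have e2' : g * X k l a * g⁻¹ = X i j a := by
        rw [e2]
        simp only [Equiv.Perm.mul_apply, s2, Equiv.swap_apply_right, s3, wc]
        simp [hik, hik.symm, hjk, hjk.symm, hkl, hkl.symm, hij, hij.symm, hjl, hjl.symm]
      have h3 : g * C a a * g⁻¹ = (C a a)⁻¹ := by
        have h5 : g * C a a * g⁻¹ = (g * X i j a * g⁻¹) * (g * X k l a * g⁻¹) *
            (g * X i j a * g⁻¹)⁻¹ * (g * X k l a * g⁻¹)⁻¹ := by
          simp only [hC]
          group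
        rw [h5, e1', e2']
        simp only [hC]
        group
      rw [hz _ (hCk a a) g] at h3
      have h4 : C a a = (C a a)⁻¹ := by
        rw [← h3]
        group
      apply h2 _ (hCk a a)
      nth_rewrite 1 [h4]
      group
    by_cases ha : a = 0
    · rw [ha]
      exact h0l b
    · by_cases hb : b = 0
      · rw [hb]
        exact h0r a
      · have h1 := hall (b * a⁻¹) (mul_ne_zero hb (inv_ne_zero ha))
        rcases mul_self_eq_one_iff.1 h1 with h3 | h3
        · have h4 : b = a := by
            field_simp at h3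
            exact h3
          rw [h4]
          exact hdiag a
        · have h4 : b = -a := by
            field_simp at h3
            exact h3
          have h5 := haddr a (-a) a
          rw [neg_add_cancel, h0r, hdiag, mul_one] at h5
          rw [h4]
          exact h5.symm

end Pool.Agent.Helper61.ML
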